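import Pool.Agent.Y706.KC.Stm
import Pool.Agent.Z864.UB.Alg

/-!
# Project KC (helper706): reduction to function fields
-/

set_option autoImplicit false

namespace Pool.Agent.Y945.KC

open Pool.Agent.W277.UB Pool.Agent.W277.UG Pool.Agent.W277.UH Pool.Agent.Y706.KC Polynomial

universe u v w

section forms

variable {F : Type*} [Field F] {d : ℕ} {p q : F[X]}

/-- no common zeros -/
lemma hev_nz (hp : p.natDegree ≤ d) (hq : q.natDegree ≤ d)
    (hco : IsCoprime p q) (ht : p.coeff d ≠ 0 ∨ q.coeff d ≠ 0) (X : F × F)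
    (h1 : hev d p X = 0) (h2 : hev d q X = 0) : X.1 ^ d = 0 ∧ X.2 = 0 := by
  by_cases hX2 : X.2 = 0
  · have hX' : X = (X.1, 0) := Prod.ext rfl hX2
    rw [hX', hev_zero] at h1 h2
    rcases ht with ht | ht
    · exact ⟨(mul_eq_zero.mp h1).resolve_left ht, hX2⟩
    · exact ⟨(mul_eq_zero.mp h2).resolve_left ht, hX2⟩
  · rw [hev_eval d p hp X hX2] at h1
    rw [hev_eval d q hq X hX2] at h2
    have e1 := (mul_eq_zero.mp h1).resolve_left (pow_ne_zero _ hX2)
    have e2 := (mul_eq_zero.mp h2).resolve_left (pow_ne_zero _ hX2)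
    obtain ⟨a, b, hab⟩ := hco
    have := congrArg (Polynomial.eval (X.1 / X.2)) hab
    simp [e1, e2] at this

lemma vF_ne (hd : d ≠ 0) (hp : p.natDegree ≤ d) (hq : q.natDegree ≤ d)
    (hco : IsCoprime p q) (ht : p.coeff d ≠ 0 ∨ q.coeff d ≠ 0) (X : F × F)
    (hX : X ≠ 0) : vF d p q X ≠ 0 := by
  intro h
  apply hX
  obtain ⟨h1, h2⟩ := hev_nz hp hq hco ht X (congrArg Prod.fst h) (congrArg Prod.snd h)
  exact Prod.ext ((pow_eq_zero_iff hd).mp h1) h2

/-- the point of the line with given homogeneous coordinates -/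
noncomputable def pt (a b : F) : Option F := by
  classical exact if b = 0 then none else some (a / b)

lemma pt_zero (a : F) : pt a (0 : F) = none := by unfold pt; exact if_pos rfl

lemma pt_ne {a b : F} (h : b ≠ 0) : pt a b = some (a / b) := by unfold pt; exact if_neg h

lemma ratP1_pt (hp : p.natDegree ≤ d) (hq : q.natDegree ≤ d) (a b : F) (hab : b = 0 → a ≠ 0) :
    ratP1 p q d (pt a b) = pt (hev d p (a, b)) (hev d q (a, b)) := by
  by_cases hb : b = 0
  · subst hb
    rw [pt_zero, hev_zero, hev_zero]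
    have ha : a ^ d ≠ 0 := pow_ne_zero _ (hab rfl)
    by_cases h : q.coeff d = 0
    · rw [ratP1_none0 _ _ _ h, h, zero_mul, pt_zero]
    · rw [ratP1_none _ _ _ h, pt_ne (mul_ne_zero h ha), mul_div_mul_right _ _ ha]
  · rw [pt_ne hb, hev_eval d p hp (a, b) hb, hev_eval d q hq (a, b) hb]
    have ha : b ^ d ≠ 0 := pow_ne_zero _ hb
    by_cases h : q.eval (a / b) = 0
    · rw [ratP1_some0 _ _ _ _ h]
      simp only [h, mul_zero]
      rw [pt_zero]
    · rw [ratP1_some _ _ _ _ h, pt_ne (mul_ne_zero ha h), mul_div_mul_left _ _ ha]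

lemma iter_pt (hd : d ≠ 0) (hp : p.natDegree ≤ d) (hq : q.natDegree ≤ d)
    (hco : IsCoprime p q) (ht : p.coeff d ≠ 0 ∨ q.coeff d ≠ 0) (m : ℕ) (x : F) :
    (vF d p q)^[m] (x, 1) ≠ 0 ∧ (ratP1 p q d)^[m] (some x) =
      pt ((vF d p q)^[m] (x, 1)).1 ((vF d p q)^[m] (x, 1)).2 := by
  induction m with
  | zero =>
    refine ⟨fun h => one_ne_zero (congrArg Prod.snd h), ?_⟩
    simp only [Function.iterate_zero, id_eq]
    rw [pt_ne one_ne_zero, div_one]
  | succ m ih =>
    obtain ⟨h1, h2⟩ := ih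
    rw [Function.iterate_succ_apply', Function.iterate_succ_apply']
    refine ⟨vF_ne hd hp hq hco ht _ h1, ?_⟩
    rw [h2, ratP1_pt hp hq]
    · rfl
    · intro h3 h4
      exact h1 (Prod.ext h4 h3)

lemma pt_eq {X Y : F × F} (hX : X ≠ 0) (hY : Y ≠ 0) (h : pt X.1 X.2 = pt Y.1 Y.2) :
    ∃ lam : F, lam ≠ 0 ∧ X = lam • Y := by
  by_cases hb : X.2 = 0
  · rw [hb, pt_zero] at h
    have hb' : Y.2 = 0 := by
      by_contra hb'
      rw [pt_ne hb'] at h
      exact absurd h (by simp)
    have hX1 : X.1 ≠ 0 := fun h1 => hX (Prod.ext h1 hb)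
    have hY1 : Y.1 ≠ 0 := fun h1 => hY (Prod.ext h1 hb')
    refine ⟨X.1 / Y.1, div_ne_zero hX1 hY1, Prod.ext ?_ ?_⟩
    · show X.1 = X.1 / Y.1 * Y.1
      rw [div_mul_cancel₀ _ hY1]
    · show X.2 = X.1 / Y.1 * Y.2
      rw [hb, hb', mul_zero]
  · rw [pt_ne hb] at h
    have hb' : Y.2 ≠ 0 := by
      intro hb'
      rw [hb', pt_zero] at h
      exact absurd h (by simp)
    rw [pt_ne hb', Option.some.injEq] at h
    refine ⟨X.2 / Y.2, div_ne_zero hb hb', Prod.ext ?_ ?_⟩
    · show X.1 = X.2 / Y.2 * Y.1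
      have h1 : X.1 = Y.1 / Y.2 * X.2 := by rw [← h, div_mul_cancel₀ _ hb]
      rw [h1]
      ring
    · show X.2 = X.2 / Y.2 * Y.2
      rw [div_mul_cancel₀ _ hb']

/-- preperiodic points in vectors -/
lemma pre_vec (hd : d ≠ 0) (hp : p.natDegree ≤ d) (hq : q.natDegree ≤ d)
    (hco : IsCoprime p q) (ht : p.coeff d ≠ 0 ∨ q.coeff d ≠ 0) (x : F)
    (h : (Set.range fun m : ℕ => (ratP1 p q d)^[m] (some x)).Finite) :
    ∃ (lam : F) (a b : ℕ), lam ≠ 0 ∧ b < a ∧
      (vF d p q)^[a] (x, 1) = lam • (vF d p q)^[b] (x, 1) := by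
  have h1 : ¬ Function.Injective (fun m : ℕ => (ratP1 p q d)^[m] (some x)) := fun hinj =>
    Set.infinite_range_of_injective hinj h
  rw [Function.Injective] at h1
  push Not at h1
  have key : ∀ a b : ℕ, b < a → (ratP1 p q d)^[a] (some x) = (ratP1 p q d)^[b] (some x) →
      ∃ (lam : F) (a b : ℕ), lam ≠ 0 ∧ b < a ∧
      (vF d p q)^[a] (x, 1) = lam • (vF d p q)^[b] (x, 1) := by
    intro a b hab e
    obtain ⟨ha1, ha2⟩ := iter_pt hd hp hq hco ht a x
    obtain ⟨hb1, hb2⟩ := iter_pt hd hp hq hco ht b x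
    rw [ha2, hb2] at e
    obtain ⟨lam, hl, hl2⟩ := pt_eq ha1 hb1 e
    exact ⟨lam, a, b, hl, hab, hl2⟩
  obtain ⟨m, l, h2, h3⟩ := h1
  rcases lt_or_gt_of_ne h3 with h4 | h4
  · exact key l m h4 h2.symm
  · exact key m l h4 h2

lemma ratP1_map {F' : Type*} [Field F'] (φ : F →+* F') (z : Option F) :
    Option.map φ (ratP1 p q d z) = ratP1 (p.map φ) (q.map φ) d (Option.map φ z) := by
  cases z with
  | none =>
    rw [Option.map_none]
    by_cases h : q.coeff d = 0
    · rw [ratP1_none0 _ _ _ h, ratP1_none0 _ _ _ (by rw [coeff_map, h, map_zero]), Option.map_none]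
    · rw [ratP1_none _ _ _ h, ratP1_none _ _ _ (by
        rw [coeff_map]
        exact (map_ne_zero φ).2 h), Option.map_some, map_div₀, coeff_map, coeff_map]
  | some x =>
    rw [Option.map_some]
    by_cases h : q.eval x = 0
    · rw [ratP1_some0 _ _ _ _ h, ratP1_some0 _ _ _ _ (by
        rw [eval_map_apply, h, map_zero]), Option.map_none]
    · rw [ratP1_some _ _ _ _ h, ratP1_some _ _ _ _ (by
        rw [eval_map_apply]
        exact (map_ne_zero φ).2 h), Option.map_some, map_div₀, eval_map_apply, eval_map_apply]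

lemma fin_map {F' : Type*} [Field F'] (φ : F →+* F') (x : F)
    (h : (Set.range fun m : ℕ => (ratP1 (p.map φ) (q.map φ) d)^[m] (some (φ x))).Finite) :
    (Set.range fun m : ℕ => (ratP1 p q d)^[m] (some x)).Finite := by
  have h1 : ∀ m : ℕ, Option.map φ ((ratP1 p q d)^[m] (some x)) =
      (ratP1 (p.map φ) (q.map φ) d)^[m] (some (φ x)) := by
    intro m
    induction m with
    | zero => rfl
    | succ m ih =>
      rw [Function.iterate_succ_apply', Function.iterate_succ_apply', ratP1_map, ih]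
  have h2 : (Option.map φ '' (Set.range fun m : ℕ => (ratP1 p q d)^[m] (some x))).Finite := by
    refine h.subset ?_
    rintro _ ⟨_, ⟨m, rfl⟩, rfl⟩
    exact ⟨m, (h1 m).symm⟩
  exact Set.Finite.of_finite_image h2 (Option.map_injective φ.injective).injOn

end forms

lemma lead_of_max {K : Type*} [Field K] {p q : K[X]} {d : ℕ} (hd : 1 ≤ d)
    (hmax : max p.natDegree q.natDegree = d) : p.coeff d ≠ 0 ∨ q.coeff d ≠ 0 := by
  rcases le_total p.natDegree q.natDegree with h | h
  · right
    rw [max_eq_right h] at hmax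
    rw [← hmax]
    apply Polynomial.leadingCoeff_ne_zero.mpr
    rintro rfl
    rw [Polynomial.natDegree_zero] at hmax
    omega
  · left
    rw [max_eq_left h] at hmax
    rw [← hmax]
    apply Polynomial.leadingCoeff_ne_zero.mpr
    rintro rfl
    rw [Polynomial.natDegree_zero] at hmax
    omega

/-- the reduction for a finitely generated field -/
theorem red_fg (hG : S_GLO.{u, u, u}) (k K : Type u) [Field k] [CharZero k] [IsAlgClosed k]
    [Field K] [Algebra k K] (S : Set K) (hSf : S.Finite) (hS : IntermediateField.adjoin k S = ⊤)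
    (d : ℕ) (hd : 2 ≤ d) (p q : K[X]) (hp : p.natDegree ≤ d) (hq : q.natDegree ≤ d)
    (ht : p.coeff d ≠ 0 ∨ q.coeff d ≠ 0) (hco : IsCoprime p q) (x c₁ : K)
    (hx : ∀ y : k, algebraMap k K y ≠ x) (hc₁ : c₁ ≠ 0)
    (h1 : ∃ i, c₁ = p.coeff i ∨ c₁ = q.coeff i)
    (h2 : ∃ i, c₁ * x = p.coeff i ∨ c₁ * x = q.coeff i) (Z : Finset k)
    (hZ : ∀ z ∈ Z, ∃ (lam : K) (a b : ℕ), lam ≠ 0 ∧ b < a ∧
      (vF d p q)^[a] (algebraMap k K z, 1) = lam • (vF d p q)^[b] (algebraMap k K z, 1)) :
    Z.card ≤ NN d := by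
  classical
  have hxt : Transcendental k x := by
    intro h
    have h3 := IsAlgClosed.degree_eq_one_of_irreducible k (minpoly.irreducible h.isIntegral)
    obtain ⟨y, hy⟩ := minpoly.mem_range_of_degree_eq_one k x h3
    exact hx y hy
  have hind : AlgebraicIndepOn k id ({x} : Set K) := algebraicIndependent_unique_type_iff.mpr hxt
  obtain ⟨B, hxB, hB⟩ := exists_isTranscendenceBasis_superset hind
  have hxB' : x ∈ B := hxB rfl
  have halg : Algebra.IsAlgebraic (IntermediateField.adjoin k B) K := by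
    have := hB.isAlgebraic_field
    rwa [Subtype.range_coe] at this
  have hScl : S ⊆ (Pool.Agent.Z864.UB.MM k K).closure B := by
    intro s _
    rw [Pool.Agent.Z864.UB.mem_cl]
    exact halg.isAlgebraic s
  have htop : IntermediateField.adjoin k (B ∪ S) = ⊤ := by
    rw [eq_top_iff, ← hS]
    exact IntermediateField.adjoin.mono _ _ _ Set.subset_union_right
  obtain ⟨hFG, hT, -⟩ := Pool.Agent.Z864.UB.sub_data (T := ∅) hB.1 hxB' hSf htop hScl
    (Set.empty_subset _)
  set E : IntermediateField k K := IntermediateField.adjoin k ((B \ {x}) ∪ ∅) with hE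
  have hxE : ¬ IsAlgebraic E x := by
    intro h
    have hI : (Pool.Agent.Z864.UB.MM k K).Indep B := AlgebraicIndependent.matroid_indep_iff.mpr hB.1
    apply hI.notMem_closure_sdiff_of_mem hxB'
    rw [Pool.Agent.Z864.UB.mem_cl]
    rw [hE, Set.union_empty] at h
    exact h
  have : CharZero E := charZero_of_injective_algebraMap (algebraMap k E).injective
  obtain ⟨P⟩ := exists_placeData_ff E K hFG hT
  have : CharZero (algebraicClosure E K) :=
    charZero_of_injective_algebraMap (algebraMap E (algebraicClosure E K)).injective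
  let ψ : k →+* algebraicClosure E K := (algebraMap E (algebraicClosure E K)).comp (algebraMap k E)
  have hψ : ∀ z, algebraMap (algebraicClosure E K) K (ψ z) = algebraMap k K z := fun z => rfl
  have hfin := hG (algebraicClosure E K) K P d hd p q hp hq ht hco (by
    rintro ⟨c, hc, hcc⟩
    apply hxE
    have e1 : ∃ y : algebraicClosure E K, algebraMap (algebraicClosure E K) K y = c * c₁ := by
      obtain ⟨i, hi | hi⟩ := h1
      · rw [hi]
        exact (hcc i).1
      · rw [hi]
        exact (hcc i).2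
    have e2 : ∃ y : algebraicClosure E K, algebraMap (algebraicClosure E K) K y = c * (c₁ * x) := by
      obtain ⟨i, hi | hi⟩ := h2
      · rw [hi]
        exact (hcc i).1
      · rw [hi]
        exact (hcc i).2
    obtain ⟨y1, hy1⟩ := e1
    obtain ⟨y2, hy2⟩ := e2
    have e3 : x = algebraMap (algebraicClosure E K) K (y2 / y1) := by
      rw [map_div₀, hy1, hy2]
      field_simp
    rw [e3]
    exact mem_algebraicClosure_iff.mp (y2 / y1).2) (Z.image ψ) (by
    intro z' hz'
    obtain ⟨z, hz, rfl⟩ := Finset.mem_image.1 hz'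
    rw [hψ]
    exact hZ z hz)
  rwa [Finset.card_image_of_injective _ ψ.injective] at hfin

theorem t_RED : S_GLO.{u, u, u} → S_FIN.{u} := by
  classical
  intro hG k L _ _ _ _ _ d hd p q hco hmax hnc
  have hp : p.natDegree ≤ d := by rw [← hmax]; exact le_max_left _ _
  have hq : q.natDegree ≤ d := by rw [← hmax]; exact le_max_right _ _
  have ht := lead_of_max (by omega) hmax
  -- a nonzero coefficient
  obtain ⟨c₁, hc₁, h1⟩ : ∃ c₁ : L, c₁ ≠ 0 ∧ ∃ i, c₁ = p.coeff i ∨ c₁ = q.coeff i := by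
    rcases ht with ht | ht
    · exact ⟨_, ht, d, Or.inl rfl⟩
    · exact ⟨_, ht, d, Or.inr rfl⟩
  obtain ⟨x, hx, h2⟩ : ∃ x : L, (∀ y : k, algebraMap k L y ≠ x) ∧
      ∃ i, c₁ * x = p.coeff i ∨ c₁ * x = q.coeff i := by
    by_contra hcon
    push Not at hcon
    apply hnc
    refine ⟨c₁⁻¹, inv_ne_zero hc₁, fun i => ?_⟩
    constructor
    · by_contra h
      push Not at h
      exact (hcon (c₁⁻¹ * p.coeff i) h i).1 (by rw [mul_inv_cancel_left₀ hc₁])
    · by_contra h
      push Not at h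
      exact (hcon (c₁⁻¹ * q.coeff i) h i).2 (by rw [mul_inv_cancel_left₀ hc₁])
  -- the field of coefficients
  let S : Finset L := p.coeffs ∪ q.coeffs
  let K : IntermediateField k L := IntermediateField.adjoin k (S : Set L)
  have hKp : ∀ i, p.coeff i ∈ K := by
    intro i
    by_cases h : p.coeff i = 0
    · rw [h]
      exact zero_mem _
    · exact IntermediateField.subset_adjoin k _ (Finset.mem_coe.2
        (Finset.mem_union_left _ (Polynomial.coeff_mem_coeffs h)))
  have hKq : ∀ i, q.coeff i ∈ K := by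
    intro i
    by_cases h : q.coeff i = 0
    · rw [h]
      exact zero_mem _
    · exact IntermediateField.subset_adjoin k _ (Finset.mem_coe.2
        (Finset.mem_union_right _ (Polynomial.coeff_mem_coeffs h)))
  obtain ⟨p', hp', hpd⟩ : ∃ p' : K[X], p'.map (algebraMap K L) = p ∧ p'.degree = p.degree := by
    have : p ∈ Polynomial.lifts (algebraMap K L) := by
      rw [Polynomial.lifts_iff_coeff_lifts]
      exact fun n => ⟨⟨_, hKp n⟩, rfl⟩
    exact Polynomial.exists_degree_eq_of_mem_lifts this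
  obtain ⟨q', hq', hqd⟩ : ∃ q' : K[X], q'.map (algebraMap K L) = q ∧ q'.degree = q.degree := by
    have : q ∈ Polynomial.lifts (algebraMap K L) := by
      rw [Polynomial.lifts_iff_coeff_lifts]
      exact fun n => ⟨⟨_, hKq n⟩, rfl⟩
    exact Polynomial.exists_degree_eq_of_mem_lifts this
  have hcp : ∀ i, ((p'.coeff i : K) : L) = p.coeff i := fun i => by
    rw [← hp', coeff_map]
    rfl
  have hcq : ∀ i, ((q'.coeff i : K) : L) = q.coeff i := fun i => by
    rw [← hq', coeff_map]
    rfl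
  have hp'd : p'.natDegree ≤ d := by
    rw [Polynomial.natDegree_eq_of_degree_eq hpd]
    exact hp
  have hq'd : q'.natDegree ≤ d := by
    rw [Polynomial.natDegree_eq_of_degree_eq hqd]
    exact hq
  have ht' : p'.coeff d ≠ 0 ∨ q'.coeff d ≠ 0 := by
    rcases ht with ht | ht
    · left
      intro h
      apply ht
      rw [← hcp, h]
      rfl
    · right
      intro h
      apply ht
      rw [← hcq, h]
      rfl
  have hco' : IsCoprime p' q' := by
    rw [← Polynomial.isCoprime_map (algebraMap K L), hp', hq']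
    exact hco
  have hc₁K : c₁ ∈ K := by
    obtain ⟨i, hi | hi⟩ := h1
    · rw [hi]
      exact hKp i
    · rw [hi]
      exact hKq i
  have hxK : x ∈ K := by
    have h3 : c₁ * x ∈ K := by
      obtain ⟨i, hi | hi⟩ := h2
      · rw [hi]
        exact hKp i
      · rw [hi]
        exact hKq i
    have h4 : x = c₁⁻¹ * (c₁ * x) := by rw [inv_mul_cancel_left₀ hc₁]
    rw [h4]
    exact K.mul_mem (K.inv_mem hc₁K) h3
  have hSK : (S : Set L) ⊆ K := IntermediateField.subset_adjoin k _
  have hSf : ((fun y : K => (y : L)) ⁻¹' (S : Set L)).Finite :=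
    S.finite_toSet.preimage Subtype.val_injective.injOn
  have hStop : IntermediateField.adjoin k ((fun y : K => (y : L)) ⁻¹' (S : Set L)) = ⊤ := by
    apply IntermediateField.lift_injective K
    rw [IntermediateField.lift_adjoin, IntermediateField.lift_top]
    have h3 : Subtype.val '' ((fun y : K => (y : L)) ⁻¹' (S : Set L)) = (S : Set L) := by
      ext y
      constructor
      · rintro ⟨z, hz, rfl⟩
        exact hz
      · intro hy
        exact ⟨⟨y, hSK hy⟩, hy, rfl⟩
    rw [h3]
  by_contra hcon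
  push Not at hcon
  obtain ⟨T, hTs, hT⟩ := Set.exists_subset_encard_eq (Order.add_one_le_of_lt hcon)
  have hTf : T.Finite := by
    apply Set.finite_of_encard_eq_coe (k := NN d + 1)
    rw [hT]
    norm_cast
  have h5 : (hTf.toFinset.card : ℕ∞) = NN d + 1 := by
    rw [← hT, hTf.encard_eq_coe_toFinset_card]
  have h6 : hTf.toFinset.card = NN d + 1 := by exact_mod_cast h5
  have h7 := red_fg hG k K _ hSf hStop d hd p' q' hp'd hq'd ht' hco' ⟨x, hxK⟩ ⟨c₁, hc₁K⟩
    (fun y hy => hx y (congrArg Subtype.val hy)) (fun h => hc₁ (congrArg Subtype.val h)) (by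
      obtain ⟨i, hi | hi⟩ := h1
      · exact ⟨i, Or.inl (Subtype.ext (by rw [hcp]; exact hi))⟩
      · exact ⟨i, Or.inr (Subtype.ext (by rw [hcq]; exact hi))⟩) (by
      obtain ⟨i, hi | hi⟩ := h2
      · exact ⟨i, Or.inl (Subtype.ext (by rw [hcp]; exact hi))⟩
      · exact ⟨i, Or.inr (Subtype.ext (by rw [hcq]; exact hi))⟩) hTf.toFinset (by
      intro z hz
      apply pre_vec (by omega) hp'd hq'd hco' ht'
      apply fin_map (algebraMap K L)
      rw [hp', hq']
      exact hTs ((Set.Finite.mem_toFinset _).1 hz))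
  omega

end Pool.Agent.Y945.KC
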